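import Pool.Agent.MP_96eeb0_lc.H87.Main2

/-! Virtually large fields. -/

namespace Pool.Agent.MP_96eeb0_lc.H63

open Pool.Agent.MP_96eeb0_lc.H32 Pool.Agent.MP_96eeb0_lc.H87

theorem virt_real_closed (K : Subfield ℝ) (hK : NIP K) (L : Type) [Field L] [Algebra K L]
    [FiniteDimensional K L] (hL : Large L) : IsRealClosed K := by
  by_contra h
  obtain ⟨E, hE, hi, hd⟩ := sd4 K h
  let f : L →ₐ[K] ℂ := IsAlgClosed.lift
  have : FiniteDimensional K f.fieldRange :=
    (AlgEquiv.ofInjectiveField f).toLinearEquiv.finiteDimensional
  let M : IntermediateField K ℂ := E ⊔ f.fieldRange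
  have : FiniteDimensional K M := IntermediateField.finiteDimensional_sup E f.fieldRange
  let g : L →ₐ[K] M := f.codRestrict M.toSubalgebra fun x =>
    (le_sup_right : f.fieldRange ≤ M) ⟨x, rfl⟩
  let _ : Algebra L M := g.toRingHom.toAlgebra
  have : IsScalarTower K L M := IsScalarTower.of_algebraMap_eq fun x => (g.commutes x).symm
  have : FiniteDimensional L M := Module.Finite.of_restrictScalars_finite K L M
  have : CharZero L := charZero_of_injective_algebraMap (algebraMap K L).injective
  have hle : E ≤ M := le_sup_left
  refine not_kl K hK M ?_ (hd.trans_le ?_) 2 le_rfl (tl L hL M 2 two_pos)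
  · have := hi.map (IntermediateField.inclusion hle)
    rwa [map_neg, map_one] at this
  · exact LinearMap.finrank_le_finrank_of_injective
      (f := (IntermediateField.inclusion hle).toLinearMap) (IntermediateField.inclusion_injective hle)

end Pool.Agent.MP_96eeb0_lc.H63
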